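import Pool.Agent.helper82.LB.Spec1

/-!
# Project LB (MP_2e0e07_nt), row EMB: primes and embeddings; transitivity
-/

set_option autoImplicit false

open Matrix Polynomial NumberField Pool.Agent.GO Pool.Agent.RG Pool.Agent.CH
open scoped Pointwise

namespace Pool.Agent.LB

/-- the Galois group is transitive on the primes over a prime number -/
theorem EMB_trans (M : Type) [Field M] [NumberField M] [IsGalois ℚ M] (P Q : Ideal (𝓞 M)) [P.IsPrime] [Q.IsPrime]
    (h : P.under ℤ = Q.under ℤ) : ∃ g : M ≃ₐ[ℚ] M, Q = g • P :=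
  Algebra.IsInvariant.exists_smul_of_under_eq ℤ (𝓞 M) (M ≃ₐ[ℚ] M) P Q h

/-- a prime ideal containing a prime number lies over it -/
theorem EMB_under (M : Type) [Field M] [NumberField M] (P : Ideal (𝓞 M)) [P.IsPrime] (p : ℕ) (hp : p.Prime)
    (h : ((p : ℕ) : 𝓞 M) ∈ P) : P.under ℤ = Ideal.span {(p : ℤ)} := by
  have hmax : (Ideal.span {(p : ℤ)}).IsMaximal :=
    PrincipalIdealRing.isMaximal_of_irreducible (Nat.prime_iff_prime_int.mp hp).irreducible
  have hle : Ideal.span {(p : ℤ)} ≤ P.under ℤ := by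
    rw [Ideal.span_singleton_le_iff_mem, Ideal.under_def, Ideal.mem_comap]
    simpa using h
  have hne : P.under ℤ ≠ ⊤ := (inferInstance : (P.under ℤ).IsPrime).ne_top
  exact (hmax.eq_of_le hne hle).symm

theorem EMB : EMB_stmt := by
  intro E M _ _ _ _ _ hEM p κ _ φ P hp hκ hP hpP
  obtain ⟨ι⟩ := hEM
  let : Algebra E M := ι.toAlgebra
  have hker : (RingHom.ker φ).IsPrime := RingHom.ker_isPrime φ
  have hinj : Function.Injective (algebraMap (𝓞 E) (𝓞 M)) := by
    intro x y hxy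
    have h1 : ((algebraMap (𝓞 E) (𝓞 M) x : 𝓞 M) : M) = ((algebraMap (𝓞 E) (𝓞 M) y : 𝓞 M) : M) := by rw [hxy]
    have h2 : ι (x : E) = ι (y : E) := h1
    exact RingOfIntegers.ext (ι.injective h2)
  obtain ⟨Q, hQ, hQP⟩ := Ideal.exists_ideal_over_prime_of_isIntegral_of_isDomain (S := 𝓞 M) (RingHom.ker φ)
    (by rw [(RingHom.injective_iff_ker_eq_bot _).mp hinj]; exact bot_le)
  have hpQ : ((p : ℕ) : 𝓞 M) ∈ Q := by
    have h1 : ((p : ℕ) : 𝓞 E) ∈ Q.comap (algebraMap (𝓞 E) (𝓞 M)) := by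
      rw [hQP, RingHom.mem_ker, map_natCast, hκ]
    rw [Ideal.mem_comap, map_natCast] at h1
    exact h1
  obtain ⟨g, hg⟩ := EMB_trans M Q P ((EMB_under M Q p hp hpQ).trans (EMB_under M P p hp hpP).symm)
  refine ⟨(g : M →+* M).comp ι, fun x => ?_⟩
  have h1 : RingOfIntegers.mapRingHom ((g : M →+* M).comp ι) x = g • (algebraMap (𝓞 E) (𝓞 M) x) := by
    apply RingOfIntegers.ext
    rfl
  rw [h1, hg, Ideal.smul_mem_pointwise_smul_iff, ← Ideal.mem_comap, hQP, RingHom.mem_ker]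

end Pool.Agent.LB
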